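import Pool.Agent.H13.Sat.Main

set_option autoImplicit false
set_option linter.all false

namespace Pool.Agent.Results.MP_9095a7_co.StronglySaturated

/-- `E` is the edge set of a `k`-uniform hypergraph with vertex set `V`. -/
def IsUniform (k : ℕ) {V : Type} (E : Set (Finset V)) : Prop := ∀ e ∈ E, e.card = k

/-- `G` contains an induced copy of `H` (both `k`-uniform, given by their edge sets). -/
def HasInducedCopy (k : ℕ) {V W : Type} (H : Set (Finset V)) (G : Set (Finset W)) : Prop :=
  ∃ φ : V ↪ W, ∀ S : Finset V, S.card = k → (S ∈ H ↔ S.map φ ∈ G)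

/-- `P` is a nonempty family of `k`-subsets of `W` such that each vertex of `W` lies in only
finitely many members of `P`. -/
def IsLocallyFiniteFamily (k : ℕ) {W : Type} (P : Set (Finset W)) : Prop :=
  (∀ e ∈ P, e.card = k) ∧ P.Nonempty ∧ ∀ w : W, {e ∈ P | w ∈ e}.Finite

/-- `G` is strongly `H`-induced-saturated: `G` has no induced copy of `H`, while every locally
finite perturbation of `G` (perturbing exactly the members of `P`) contains one. -/
def StronglySaturated (k : ℕ) {V W : Type} (H : Set (Finset V)) (G : Set (Finset W)) : Prop :=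
  ¬ HasInducedCopy k H G ∧
    ∀ P : Set (Finset W), IsLocallyFiniteFamily k P → HasInducedCopy k H (symmDiff G P)

theorem result : ∀ k : ℕ, 3 ≤ k → ∀ (V : Type) [Finite V] (H : Set (Finset V)),
    IsUniform k H → H.Nonempty → (∃ S : Finset V, S.card = k ∧ S ∉ H) →
    ∃ G : Set (Finset ℕ), IsUniform k G ∧ StronglySaturated k H G := by
  classical
  intro k hk V _ H hH hne hnon
  haveI : Fintype V := Fintype.ofFinite V
  obtain ⟨e0, he0⟩ := hne
  obtain ⟨G, h1, h2, h3⟩ := Pool.Agent.H13.Sat.good_all (H := fun S => S ∈ H) hk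
    ⟨e0, hH e0 he0, he0⟩ hnon
  refine ⟨G, h1, ?_, ?_⟩
  · rintro ⟨φ, hφ⟩
    apply h2 φ φ.injective
    intro S hS
    have := hφ S hS
    rw [Finset.map_eq_image] at this
    exact this
  · rintro P ⟨hP1, hP2, hP3⟩
    obtain ⟨φ, hinj, hφ⟩ := h3 P hP1 hP2 hP3
    refine ⟨⟨φ, hinj⟩, ?_⟩
    intro S hS
    rw [Finset.map_eq_image]
    exact hφ S hS

end Pool.Agent.Results.MP_9095a7_co.StronglySaturated
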